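import Pool.Agent.H.MP_8a71fe_al.A
import Pool.Agent.H.MP_07d438_ag.A

set_option autoImplicit false

namespace Pool.Agent.HShift

open Finset MvPolynomial Pool.Agent.Dep Pool.Agent.Nf CategoryTheory Abelian

variable {n : ℕ} {K : Type} [Field K] {J : Ideal (MvPolynomial (Fin n) K)} {i : ℕ}
  {c : Finset (Fin n) → MvPolynomial (Fin n) K} {y : MvPolynomial (Fin n) K}

def Lv (i : ℕ) (c : Finset (Fin n) → MvPolynomial (Fin n) K) : Prop := ∀ F, #F ≠ i → c F = 0

def KV (J : Ideal (MvPolynomial (Fin n) K)) (i : ℕ) : Prop :=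
  ∀ c, Lv i c → (∀ G, kd c G ∈ J) → ∃ w, Lv (i + 1) w ∧ ∀ F, kd w F - c F ∈ J

lemma kd_smul (r : MvPolynomial (Fin n) K) (G : Finset (Fin n)) : kd (r • c) G = r * kd c G := by
  simp [kd, mul_sum, mul_left_comm]

lemma kd_mem (h : ∀ F, c F ∈ J) (G : Finset (Fin n)) : kd c G ∈ J :=
  J.sum_mem fun _ _ => J.mul_mem_left _ (h _)

lemma Lv.kd (h : Lv (i + 1) c) : Lv i (kd c) := fun G hG => sum_eq_zero fun j hj => by
  rw [h _ (by rw [card_insert_of_notMem (mem_compl.1 hj)]; omega), mul_zero]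

noncomputable def coneP (v : Fin n) (c : Finset (Fin n) → MvPolynomial (Fin n) K)
    (G : Finset (Fin n)) : MvPolynomial (Fin n) K :=
  if v ∈ G then sg K v (G.erase v) • c (G.erase v) else 0

lemma coneP_insert {v : Fin n} {G : Finset (Fin n)} (h : v ∉ G) :
    coneP v c (insert v G) = sg K v G • c G := by
  rw [coneP, if_pos (mem_insert_self _ _), erase_insert h]

lemma kd_coneP (v : Fin n) (G : Finset (Fin n)) :
    kd (coneP v c) G - X v * c G = -coneP v (kd c) G := by
  by_cases hv : v ∈ G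
  · obtain ⟨G, hG, rfl⟩ : ∃ G', v ∉ G' ∧ G = insert v G' :=
      ⟨_, notMem_erase _ _, (insert_erase hv).symm⟩
    rw [coneP_insert hG, kd_eq, kd_eq, ← add_sum_erase _ _ (mem_compl.2 hG), smul_add, smul_smul,
      sg_sq, one_smul, neg_add', sub_eq_neg_add, sub_eq_add_neg, add_right_inj, compl_insert,
      smul_sum, ← sum_neg_distrib]
    refine sum_congr rfl fun j hj => ?_
    rw [mem_erase, mem_compl] at hj
    rw [insert_comm, coneP_insert (by simp [hG, hj.1.symm]), mul_smul_comm, smul_smul, smul_smul,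
      sg_swap hj.1 hj.2 hG, neg_smul, mul_comm]
  · rw [coneP, if_neg hv, neg_zero, kd_eq, sum_eq_single v (fun j _ hj => by
      rw [coneP, if_neg (by simp [hv, hj.symm]), mul_zero, smul_zero]) (by simp [hv]),
      coneP_insert hv, mul_smul_comm, smul_smul, sg_sq, one_smul, sub_self]

lemma htpy (hy : y ∈ mm K n) (h : Lv i c) (h' : ∀ G, kd c G ∈ J) :
    ∃ w, Lv (i + 1) w ∧ ∀ F, kd w F - y * c F ∈ J := by
  induction hy using Submodule.span_induction with
  | mem y hy =>
    obtain ⟨v, rfl⟩ := hy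
    refine ⟨coneP v c, fun F hF => ite_eq_right_iff.2 fun hv => ?_, fun F => ?_⟩
    · rw [h _ fun h1 => hF (h1 ▸ (card_erase_add_one hv).symm), smul_zero]
    · rw [kd_coneP, coneP]
      split_ifs
      · exact neg_mem (J.smul_of_tower_mem _ (h' _))
      · simp
  | zero => exact ⟨0, fun _ _ => rfl, by simp [kd]⟩
  | add a b _ _ h1 h2 =>
    obtain ⟨w, h1, h3⟩ := h1
    obtain ⟨w', h2, h4⟩ := h2
    refine ⟨w - (-1 : MvPolynomial (Fin n) K) • w', fun F hF => by simp [h1 F hF, h2 F hF],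
      fun F => ?_⟩
    convert add_mem (h3 F) (h4 F) using 1
    rw [kd_sub, kd_smul]
    ring
  | smul r a _ h1 =>
    obtain ⟨w, h1, h3⟩ := h1
    refine ⟨r • w, fun F hF => by simp [h1 F hF], fun F => ?_⟩
    convert J.mul_mem_left r (h3 F) using 1
    rw [kd_smul, smul_eq_mul]
    ring

lemma split (h : Lv i c) (h' : ∀ F, c F ∈ J ⊔ Ideal.span {y}) :
    ∃ d, Lv i d ∧ ∀ F, c F - y * d F ∈ J := by
  have : ∀ F, ∃ d, (#F ≠ i → d = 0) ∧ c F - y * d ∈ J := fun F => by
    by_cases h1 : #F = i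
    · obtain ⟨a, ha, _, hb, e⟩ := Submodule.mem_sup.1 (h' F)
      obtain ⟨d, rfl⟩ := Ideal.mem_span_singleton'.1 hb
      exact ⟨d, fun h => absurd h1 h, by rwa [← e, mul_comm, add_sub_cancel_right]⟩
    · exact ⟨0, fun _ => rfl, by simp [h F h1]⟩
  choose d h1 h2 using this
  exact ⟨d, h1, h2⟩

lemma kv_up (hy : ∀ c, c * y ∈ J → c ∈ J) (h1 : KV J (i + 1)) (h2 : KV J i) :
    KV (J ⊔ Ideal.span {y}) (i + 1) := fun c h3 h4 => by
  obtain ⟨d, h5, h6⟩ := split h3.kd h4
  obtain ⟨e, h7, h8⟩ := h2 d h5 fun G => hy _ (by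
    have := kd_mem (c := kd c - y • d) h6 G
    rwa [kd_sub, kd_kd, zero_sub, neg_mem_iff, kd_smul, mul_comm] at this)
  obtain ⟨w, h9, h10⟩ := h1 (c - y • e) (fun F hF => by simp [h3 F hF, h7 F hF]) fun G => by
    convert sub_mem (h6 G) (J.mul_mem_left y (h8 G)) using 1
    rw [kd_sub, kd_smul]
    ring
  refine ⟨w, h9, fun F => ?_⟩
  convert sub_mem (Ideal.mem_sup_left (h10 F)) (Ideal.mem_sup_right
    (Ideal.mul_mem_right (e F) _ (Ideal.mem_span_singleton_self y))) using 1
  rw [Pi.sub_apply, Pi.smul_apply, smul_eq_mul]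
  ring

lemma kv_down (hy : ∀ c, c * y ∈ J → c ∈ J) (hy' : y ∈ mm K n)
    (h1 : KV (J ⊔ Ideal.span {y}) (i + 1)) : KV J i := fun c h2 h3 => by
  obtain ⟨h, h4, h5⟩ := htpy hy' h2 h3
  obtain ⟨w, h6, h7⟩ := h1 h h4 fun G => by
    convert add_mem (Ideal.mem_sup_left (h5 G)) (Ideal.mem_sup_right
      (Ideal.mul_mem_right (c G) _ (Ideal.mem_span_singleton_self y))) using 1
    simp
  obtain ⟨e, h8, h9⟩ := split (c := h - kd w) (fun F hF => by simp [h4 F hF, h6.kd F hF])
    fun F => neg_mem_iff.1 (by simpa using h7 F)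
  refine ⟨e, h8, fun F => hy _ ?_⟩
  convert sub_mem (h5 F) (kd_mem (c := h - kd w - y • e) h9 F) using 1
  rw [kd_sub, kd_sub, kd_kd, kd_smul]
  ring

lemma dp_iff (r : ℕ) : ∀ J ≤ mm K n,
    (DP (mm K n) (MvPolynomial (Fin n) K ⧸ J) r ↔ ∀ i, n < i + r → KV J i) := by
  have e : ∀ {i} {c : Finset (Fin n) → MvPolynomial (Fin n) K}, n < i → Lv i c → c = 0 :=
    fun h h' => funext fun F => h' F ((card_le_univ F).trans_lt (by simpa)).ne
  induction r with
  | zero => exact fun J _ => ⟨fun _ i hi c h _ => ⟨0, fun _ _ => rfl, by simp [e hi h, kd]⟩,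
      fun _ _ h => absurd h (by simp)⟩
  | succ r ih =>
    intro J hJ
    have key : DP (mm K n) (_ ⧸ J) 1 → ∃ y ∈ mm K n, ∀ c, c * y ∈ J → c ∈ J := fun h => by
      obtain ⟨_ | ⟨y, rs⟩, h1, h2, h3⟩ := (exists_reg hJ mm_max.ne_top).1 h
      · simp at h1
      · refine ⟨y, h2 y (by simp), fun c hc => Ideal.Quotient.eq_zero_iff_mem.1
          (((RingTheory.Sequence.isRegular_cons_iff _ _ _).1 h3).1 ?_)⟩
        exact (Ideal.Quotient.eq_zero_iff_mem.2 (mul_comm c y ▸ hc : y * c ∈ J)).trans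
          (smul_zero y).symm
    constructor
    · intro h i hi
      obtain ⟨y, h1, h2⟩ := key (h.mono (by omega))
      exact kv_down h2 h1 ((ih _ (sup_le hJ (by simpa))).1 (dq_down J y h2 h) _ (by omega))
    · intro h
      obtain ⟨y, h1, h2⟩ := key fun i hi => by
        obtain rfl : i = 0 := by omega
        refine Ext.homEquiv₀.subsingleton_congr.2 (subsingleton_of_forall_eq 0 fun φ => ?_)
        obtain ⟨u, hu⟩ := J.mkQ_surjective (φ.hom 1)
        obtain ⟨w, h1, h2⟩ := h n (by omega) (Pi.single univ u)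
          (fun F hF => Pi.single_eq_of_ne (by rintro rfl; simp at hF) _) fun G =>
            J.sum_mem fun j _ => by
              rw [mul_assoc, Pi.single_apply]
              refine J.mul_mem_left _ ?_
              split_ifs
              · refine (Submodule.Quotient.mk_eq_zero J).1 ?_
                change (X j : MvPolynomial (Fin n) K) • J.mkQ u = 0
                rw [hu, ← map_smul, show (X j : MvPolynomial (Fin n) K) • (1 : _ ⧸ mm K n) = 0 from
                  Ideal.Quotient.eq_zero_iff_mem.2 (Ideal.mul_mem_right _ _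
                    (Ideal.subset_span ⟨j, rfl⟩)), map_zero]
              · simp
        have h3 : J.mkQ u = 0 := (Submodule.Quotient.mk_eq_zero J).2 (by simpa [kd] using h2 univ)
        refine ModuleCat.hom_ext (LinearMap.ext fun x => ?_)
        obtain ⟨x, rfl⟩ := Ideal.Quotient.mk_surjective x
        rw [show Ideal.Quotient.mk (mm K n) x = x • 1 from (mul_one _).symm, map_smul, ← hu, h3]
        simp
      refine dq_up J y h2 h1 ((ih _ (sup_le hJ (by simpa))).2 fun i hi => ?_)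
      rcases i with _ | i
      · exact fun c h3 h4 => (h 0 (by omega) c h3 fun G => by
          rw [kd_eq]
          exact J.sum_mem fun j _ => by simp [h3 _ (card_ne_zero.2 (insert_nonempty j G))]).imp
            fun w hw => ⟨hw.1, fun F => Ideal.mem_sup_left (hw.2 F)⟩
      · exact kv_up h2 (h _ (by omega)) (h _ (by omega))

variable {B : Set (Fin n →₀ ℕ)} {a : Fin n →₀ ℕ}

noncomputable def comp (a : Fin n →₀ ℕ) (c : Finset (Fin n) → MvPolynomial (Fin n) K)
    (F : Finset (Fin n)) : K := if ee F ≤ a then coeff (a - ee F) (c F) else 0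

lemma comp_kd : comp a (kd c) = bd (comp a c) := by
  ext G
  have e : ∀ j ∉ G, ee (insert j G) = ee G + Finsupp.single j 1 := fun j hj => by
    rw [ee, sum_insert hj, add_comm, ee]
  simp only [comp, bd, kd_eq, coeff_sum, coeff_smul, coeff_X_mul', smul_eq_mul]
  split_ifs with h
  · refine sum_congr rfl fun j hj => ?_
    simp only [e j (mem_compl.1 hj), tsub_tsub, add_comm (ee G), ← le_tsub_iff_right h,
      Finsupp.single_le_iff, Finsupp.mem_support_iff, Nat.one_le_iff_ne_zero]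
  · exact (sum_eq_zero fun j hj => by
      rw [if_neg fun h' => h (le_self_add.trans (e j (mem_compl.1 hj) ▸ h')), mul_zero]).symm

lemma mem_comp : (∀ F, c F ∈ mi K B) ↔ ∀ a F, comp a c F ≠ 0 → Dl B a F := by
  simp only [mi, mem_ideal_span_monomial_image, comp, ite_ne_right_iff, mem_support_iff]
  refine ⟨fun h a F h1 => ?_, fun h F m hm => ?_⟩
  · obtain ⟨x, h2, h3⟩ := h F _ h1.2
    exact ⟨x, h2, fun j => ee_apply F j ▸ (le_tsub_iff_right h1.1).1 h3 j⟩
  · obtain ⟨x, h2, h3⟩ := h (m + ee F) F ⟨le_add_self, by rwa [add_tsub_cancel_right]⟩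
    exact ⟨x, h2, fun j => by simpa [ee_apply] using h3 j⟩

lemma comp_Ph {b : Fin n →₀ ℕ} {d : Finset (Fin n) → K} (h : Supp (ee · ≤ b) i d)
    (F : Finset (Fin n)) : comp a (Ph b d) F = if b = a then d F else 0 := by
  by_cases h0 : d F = 0
  · simp [comp, Ph, h0]
  have := (h F h0).1
  rw [comp, Ph, coeff_monomial]
  by_cases h1 : ee F ≤ a
  · simp only [if_pos h1, tsub_left_inj this h1]
  · rw [if_neg h1, if_neg fun e : b = a => h1 (e ▸ this)]

lemma van_simplex : Van K (ee · ≤ a) (i + 1) := by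
  by_cases h : ∃ v, 1 ≤ a v
  · obtain ⟨v, h⟩ := h
    refine van_cone v fun F _ h1 j => ?_
    have := h1 j
    simp only [ee_apply, mem_insert] at *
    grind
  · refine van_small fun F h1 h2 => ?_
    obtain ⟨v, hv⟩ := card_pos.1 (show 0 < #F by omega)
    exact h ⟨v, by simpa [ee_apply, hv] using h1 v⟩

lemma kv_iff (h0 : 0 ∉ B) : KV (mi K B) (i + 1) ↔ ∀ a, Van K (Dl B a) i := by
  have e : ∀ {i} {c : Finset (Fin n) → MvPolynomial (Fin n) K} a, Lv i c →
      Supp (ee · ≤ a) i (comp a c) := fun a h F hF =>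
    ⟨(ite_ne_right_iff.1 hF).1, by_contra fun h1 => hF (by simp [comp, h F h1])⟩
  have e1 : ∀ a (c d : Finset (Fin n) → MvPolynomial (Fin n) K),
      comp a (c - d) = comp a c - comp a d := fun a c d => funext fun F => by
    simp only [comp, Pi.sub_apply, coeff_sub]
    split_ifs <;> simp
  refine ⟨fun h a z h1 h2 => ?_, fun h c h1 h2 => ?_⟩
  · obtain ⟨c, h3, rfl⟩ : ∃ c, Supp (ee · ≤ a) (i + 1) c ∧ bd c = z := by
      rcases i with _ | i
      · by_cases h3 : z = 0
        · exact ⟨0, fun _ h => absurd rfl h, bd_zero.trans h3.symm⟩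
        obtain ⟨F, hF⟩ := Function.ne_iff.1 h3
        obtain ⟨x, h4, h5⟩ := (h1 F hF).1
        obtain ⟨v, hv⟩ := Finsupp.ne_iff.1 (show x ≠ 0 from fun e => h0 (e ▸ h4))
        refine van_cone v (fun F _ h1 j => ?_) z (fun F h => ⟨(h1 F h).1.le, (h1 F h).2⟩) h2
        have := h1 j
        have := h5 v
        simp only [ee_apply, mem_insert, Finsupp.zero_apply] at *
        grind
      · exact van_simplex z (fun F h => ⟨(h1 F h).1.le, (h1 F h).2⟩) h2
    obtain ⟨w, h4, h5⟩ := h (Ph a c) (fun F hF => by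
      rw [Ph, not_not.1 fun h => hF (h3 F h).2, map_zero]) (mem_comp.2 fun b F hF => by
        rw [comp_kd, funext (comp_Ph h3)] at hF
        by_cases h6 : a = b
        · simp only [if_pos h6] at hF
          exact h6 ▸ (h1 F hF).1
        · simp only [if_neg h6] at hF
          exact absurd (congrFun bd_zero F) hF)
    have h6 := mem_comp (c := kd w - Ph a c).1 h5 a
    rw [e1, comp_kd, funext (comp_Ph h3)] at h6
    simp only [if_true] at h6
    refine ⟨c - bd (comp a w), fun F hF => ⟨h6 F fun h => hF ?_, ((h3.sub ((e a h4).bd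
      fun F G h h' j => le_trans ?_ (h j))) F hF).2⟩, by rw [bd_sub, bd_bd, sub_zero]⟩
    · exact sub_eq_zero.2 (sub_eq_zero.1 h).symm
    · have := @h' j
      simp only [ee_apply]
      grind
  · have : ∀ a, ∃ u : Finset (Fin n) → K, Supp (ee · ≤ a) (i + 1 + 1) u ∧
        ∀ F, (bd u - comp a c) F ≠ 0 → Dl B a F := by
      intro a
      obtain ⟨w, h3, h4⟩ := h a (comp a (kd c))
        (fun F hF => ⟨mem_comp.1 h2 a F hF, (e a h1.kd F hF).2⟩) (by rw [comp_kd, bd_bd])
      obtain ⟨u, h5, h6⟩ := van_simplex _ ((e a h1).sub fun F h => ⟨(h3 F h).1.le, (h3 F h).2⟩)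
        (by rw [bd_sub, h4, comp_kd, sub_self])
      exact ⟨u, h5, fun F hF => (h3 F (by simpa [h6] using hF)).1⟩
    choose u h3 h4 using this
    let A := univ.biUnion fun F => (c F).support.image (· + ee F)
    refine ⟨∑ a ∈ A, Ph a (u a), fun F hF => by
      rw [Finset.sum_apply]
      exact sum_eq_zero fun a _ => by rw [Ph, not_not.1 fun h => hF (h3 a F h).2, map_zero],
      mem_comp (c := kd _ - c).2 fun b F hF => ?_⟩
    have h5 : comp b (∑ a ∈ A, Ph a (u a)) = if b ∈ A then u b else 0 := funext fun F => by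
      rw [ite_apply, Pi.zero_apply, ← sum_ite_eq' A b fun a => u a F,
        ← sum_congr rfl fun a _ => comp_Ph (h3 a) F]
      simp only [comp, Finset.sum_apply, coeff_sum]
      split_ifs <;> simp
    rw [e1, comp_kd, h5] at hF
    split_ifs at hF with h6
    · exact h4 b F hF
    · rw [bd_zero, zero_sub, Pi.neg_apply, neg_ne_zero, comp, ite_ne_right_iff] at hF
      exact absurd (mem_biUnion.2 ⟨F, mem_univ _, tsub_add_cancel_of_le hF.1 ▸
        mem_image_of_mem (· + ee F) (mem_support_iff.2 hF.2)⟩) h6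

lemma mi_le (h0 : 0 ∉ B) : mi K B ≤ mm K n := Ideal.span_le.2 <| by
  rintro _ ⟨x, hx, rfl⟩
  obtain ⟨v, hv⟩ := Finsupp.ne_iff.1 (show x ≠ 0 from fun e => h0 (e ▸ hx))
  exact Ideal.mem_of_dvd _ (X_dvd_monomial.2 (.inr hv)) (Ideal.subset_span ⟨v, rfl⟩)

lemma depth_iff (h0 : 0 ∉ B) {r : ℕ} (hr : r ≤ n) :
    DP (mm K n) (MvPolynomial (Fin n) K ⧸ mi K B) r ↔ ∀ a i, n ≤ i + r → Van K (Dl B a) i := by
  rw [dp_iff r _ (mi_le h0)]
  refine ⟨fun h a i hi => (kv_iff h0).1 (h _ (by omega)) a, fun h i hi => ?_⟩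
  obtain ⟨i, rfl⟩ : ∃ j, i = j + 1 := ⟨i - 1, by omega⟩
  exact (kv_iff h0).2 fun a => h a i (by omega)

end Pool.Agent.HShift
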